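import Pool.Agent.N741.HB.Stm3

set_option autoImplicit false

/-!
# Companion matrices (helper130, for project HC)
-/

namespace Pool.Agent.N130.HC

open MvPolynomial Pool.Agent.N741.HB Pool.Agent.N741.HC

noncomputable section

/-- the vector `(1, a, …, a ^ (κ - 1))` is a left eigenvector of `M` with eigenvalue `x` -/
def EV {R : Type*} [CommRing R] {κ : ℕ} (φ : R →+* ℂ) (a : ℂ) (M : Matrix (Fin κ) (Fin κ) R)
    (x : ℂ) : Prop := ∀ j : Fin κ, ∑ i : Fin κ, a ^ (i : ℕ) * φ (M i j) = x * a ^ (j : ℕ)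

section

variable {R : Type*} [CommRing R] {κ : ℕ} {φ : R →+* ℂ} {a : ℂ}
  {M M' : Matrix (Fin κ) (Fin κ) R} {x y : ℂ}

theorem EV.one : EV φ a (1 : Matrix (Fin κ) (Fin κ) R) 1 := by
  intro j
  rw [Finset.sum_eq_single j]
  · rw [Matrix.one_apply_eq, map_one]; ring
  · intro i _ hij
    rw [Matrix.one_apply_ne hij, map_zero, mul_zero]
  · intro h
    exact absurd (Finset.mem_univ _) h

theorem EV.mul (h : EV φ a M x) (h' : EV φ a M' y) : EV φ a (M * M') (x * y) := by
  intro j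
  calc ∑ i : Fin κ, a ^ (i : ℕ) * φ ((M * M') i j)
      = ∑ i : Fin κ, ∑ k : Fin κ, a ^ (i : ℕ) * φ (M i k) * φ (M' k j) := by
        refine Finset.sum_congr rfl fun i _ => ?_
        rw [Matrix.mul_apply, map_sum, Finset.mul_sum]
        refine Finset.sum_congr rfl fun k _ => ?_
        rw [map_mul]; ring
    _ = ∑ k : Fin κ, x * a ^ (k : ℕ) * φ (M' k j) := by
        rw [Finset.sum_comm]
        refine Finset.sum_congr rfl fun k _ => ?_
        rw [← Finset.sum_mul, h k]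
    _ = x * y * a ^ (j : ℕ) := by
        rw [mul_assoc, ← h' j, Finset.mul_sum]
        exact Finset.sum_congr rfl fun k _ => by ring

theorem EV.pow (h : EV φ a M x) (n : ℕ) : EV φ a (M ^ n) (x ^ n) := by
  induction n with
  | zero => rw [pow_zero, pow_zero]; exact EV.one
  | succ n ih => rw [pow_succ, pow_succ]; exact ih.mul h

theorem EV.smul (c : R) (h : EV φ a M x) : EV φ a (c • M) (φ c * x) := by
  intro j
  rw [mul_assoc, ← h j, Finset.mul_sum]
  refine Finset.sum_congr rfl fun i _ => ?_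
  rw [Matrix.smul_apply, smul_eq_mul, map_mul]; ring

theorem EV.sum {ι : Type*} (s : Finset ι) (f : ι → Matrix (Fin κ) (Fin κ) R) (g : ι → ℂ)
    (h : ∀ i ∈ s, EV φ a (f i) (g i)) : EV φ a (∑ i ∈ s, f i) (∑ i ∈ s, g i) := by
  intro j
  rw [Finset.sum_mul]
  calc ∑ i : Fin κ, a ^ (i : ℕ) * φ ((∑ k ∈ s, f k) i j)
      = ∑ i : Fin κ, ∑ k ∈ s, a ^ (i : ℕ) * φ (f k i j) := by
        refine Finset.sum_congr rfl fun i _ => ?_
        rw [Matrix.sum_apply, map_sum, Finset.mul_sum]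
    _ = _ := by
        rw [Finset.sum_comm]
        exact Finset.sum_congr rfl fun k hk => h k hk j

theorem EV.list {n : ℕ} (f : Fin n → Matrix (Fin κ) (Fin κ) R) (g : Fin n → ℂ)
    (h : ∀ i, EV φ a (f i) (g i)) : EV φ a (List.ofFn f).prod (∏ i, g i) := by
  induction n with
  | zero =>
    rw [List.ofFn_zero, List.prod_nil, Finset.univ_eq_empty, Finset.prod_empty]
    exact EV.one
  | succ n ih =>
    rw [List.ofFn_succ, List.prod_cons, Fin.prod_univ_succ]
    exact (h 0).mul (ih _ _ fun i => h i.succ)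

/-- the value is given by the first column -/
theorem EV.val (h : EV φ a M x) (h0 : 0 < κ) : ∑ i, φ (M i ⟨0, h0⟩) * a ^ (i : ℕ) = x := by
  have := h ⟨0, h0⟩
  rw [pow_zero, mul_one] at this
  rw [← this]
  exact Finset.sum_congr rfl fun i _ => mul_comm _ _

/-- the companion matrix -/
def cmp (m : Fin κ → R) : Matrix (Fin κ) (Fin κ) R :=
  Matrix.of fun i j => (if (i : ℕ) = j + 1 then 1 else 0) - (if (j : ℕ) + 1 = κ then m i else 0)

theorem EV.cmp (m : Fin κ → R) (h : a ^ κ + ∑ l, φ (m l) * a ^ (l : ℕ) = 0) :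
    EV φ a (cmp m) a := by
  intro j
  unfold HC.cmp
  simp only [Matrix.of_apply, map_sub, mul_sub, Finset.sum_sub_distrib]
  by_cases hj : (j : ℕ) + 1 = κ
  · have h1 : ∑ i : Fin κ, a ^ (i : ℕ) * φ (if (i : ℕ) = j + 1 then 1 else 0) = 0 := by
      refine Finset.sum_eq_zero fun i _ => ?_
      rw [if_neg (by omega), map_zero, mul_zero]
    have h2 : ∑ i : Fin κ, a ^ (i : ℕ) * φ (if (j : ℕ) + 1 = κ then m i else 0) =
        ∑ l, φ (m l) * a ^ (l : ℕ) := by
      refine Finset.sum_congr rfl fun i _ => ?_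
      rw [if_pos hj, mul_comm]
    rw [h1, h2, zero_sub, ← pow_succ', hj]
    linear_combination -h
  · have hj2 : (j : ℕ) + 1 < κ := by omega
    have h1 : ∑ i : Fin κ, a ^ (i : ℕ) * φ (if (i : ℕ) = j + 1 then 1 else 0) =
        a ^ ((j : ℕ) + 1) := by
      rw [Finset.sum_eq_single ⟨(j : ℕ) + 1, hj2⟩]
      · rw [if_pos rfl, map_one, mul_one]
      · intro i _ hi
        rw [if_neg, map_zero, mul_zero]
        intro hcon
        exact hi (Fin.ext hcon)
      · intro h
        exact absurd (Finset.mem_univ _) h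
    have h2 : ∑ i : Fin κ, a ^ (i : ℕ) * φ (if (j : ℕ) + 1 = κ then m i else 0) = 0 := by
      refine Finset.sum_eq_zero fun i _ => ?_
      rw [if_neg hj, map_zero, mul_zero]
    rw [h1, h2, sub_zero, pow_succ']

/-- the matrix of multiplication by `∑ v l * a ^ l` -/
def mx (m v : Fin κ → R) : Matrix (Fin κ) (Fin κ) R := ∑ l, v l • cmp m ^ (l : ℕ)

theorem EV.mx (m v : Fin κ → R) (h : a ^ κ + ∑ l, φ (m l) * a ^ (l : ℕ) = 0) :
    EV φ a (mx m v) (∑ l, φ (v l) * a ^ (l : ℕ)) :=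
  EV.sum _ _ _ fun _ _ => ((EV.cmp m h).pow _).smul _

end

end

end Pool.Agent.N130.HC
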