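import Pool.Agent.N130.HC.Cmp

set_option autoImplicit false

/-!
# Coordinates of powers of sums of terms (S_coord; helper130, for project HC)
-/

namespace Pool.Agent.N130.HC

open Filter MvPolynomial Pool.Agent.Y902.GN Pool.Agent.N741.HB Pool.Agent.N741.HC

noncomputable section

section size

variable {σ : Type*} {κ : ℕ}

/-- sizes of matrices -/
def MSz (w : ℕ) (M : Matrix (Fin κ) (Fin κ) (MvPolynomial σ ℤ)) : Prop := ∀ i j, Sz w (M i j)

variable {w w' : ℕ} {M M' : Matrix (Fin κ) (Fin κ) (MvPolynomial σ ℤ)}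

theorem MSz.mono (h : MSz w M) (hw : w ≤ w') : MSz w' M := fun i j => (h i j).mono hw

theorem MSz.one : MSz w (1 : Matrix (Fin κ) (Fin κ) (MvPolynomial σ ℤ)) := by
  intro i j
  rw [Matrix.one_apply]
  split_ifs
  · exact Sz.one
  · exact Sz.zero

theorem MSz.mul (h : MSz w M) (h' : MSz w' M') : MSz (w + w' + κ) (M * M') := by
  intro i j
  rw [Matrix.mul_apply]
  have := Sz.sum (s := Finset.univ) (f := fun k => M i k * M' k j) (w := w + w')
    fun k _ => (h i k).mul (h' k j)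
  rwa [Finset.card_univ, Fintype.card_fin] at this

theorem MSz.pow (h : MSz w M) (n : ℕ) : MSz (n * (w + κ)) (M ^ n) := by
  induction n with
  | zero => rw [pow_zero]; exact MSz.one
  | succ n ih =>
    rw [pow_succ]
    exact (ih.mul h).mono (by ring_nf; omega)

theorem MSz.smul {c : MvPolynomial σ ℤ} (hc : Sz w c) (h : MSz w' M) : MSz (w + w') (c • M) := by
  intro i j
  rw [Matrix.smul_apply, smul_eq_mul]
  exact hc.mul (h i j)

theorem MSz.sum {ι : Type*} {s : Finset ι} {f : ι → Matrix (Fin κ) (Fin κ) (MvPolynomial σ ℤ)}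
    (h : ∀ i ∈ s, MSz w (f i)) : MSz (w + s.card) (∑ i ∈ s, f i) := by
  intro i j
  rw [Matrix.sum_apply]
  exact Sz.sum fun k hk => h k hk i j

theorem MSz.list {n : ℕ} (f : Fin n → Matrix (Fin κ) (Fin κ) (MvPolynomial σ ℤ)) (g : Fin n → ℕ)
    (h : ∀ i, MSz (g i) (f i)) : MSz (∑ i, (g i + κ)) (List.ofFn f).prod := by
  induction n with
  | zero =>
    rw [List.ofFn_zero, List.prod_nil]
    exact MSz.one
  | succ n ih =>
    rw [List.ofFn_succ, List.prod_cons, Fin.sum_univ_succ]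
    exact ((h 0).mul (ih _ _ fun i => h i.succ)).mono (by omega)

theorem MSz.cmp {m : Fin κ → MvPolynomial σ ℤ} (hm : ∀ l, Sz w (m l)) :
    MSz (w + 1) (cmp m) := by
  intro i j
  unfold HC.cmp
  rw [Matrix.of_apply]
  have h1 : Sz 0 (if (i : ℕ) = j + 1 then (1 : MvPolynomial σ ℤ) else 0) := by
    split_ifs
    · exact Sz.one
    · exact Sz.zero
  have h2 : Sz w (if (j : ℕ) + 1 = κ then m i else 0) := by
    split_ifs
    · exact hm i
    · exact Sz.zero
  exact (h1.sub h2).mono (by omega)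

theorem MSz.mx {m v : Fin κ → MvPolynomial σ ℤ} (hm : ∀ l, Sz w (m l)) (hv : ∀ l, Sz w' (v l)) :
    MSz (w' + κ * (w + 1 + κ) + κ) (mx m v) := by
  unfold HC.mx
  have := MSz.sum (s := Finset.univ) (f := fun l : Fin κ => v l • HC.cmp m ^ (l : ℕ))
    (w := w' + κ * (w + 1 + κ)) fun l _ =>
      (MSz.smul (hv l) ((MSz.cmp hm).pow _)).mono
        (Nat.add_le_add_left (Nat.mul_le_mul_right _ l.2.le) _)
  rwa [Finset.card_univ, Fintype.card_fin] at this

end size

theorem coord : S_coord := by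
  intro Y hY N N' n κ o μ ξ S e₀ hκ
  classical
  obtain ⟨m, hm⟩ : ∃ m : Fin κ → MvPolynomial (Fin N) ℤ, m = fun l => X (μ l) - X o := ⟨_, rfl⟩
  obtain ⟨v, hv⟩ : ∃ v : Fin N' → Fin κ → MvPolynomial (Fin N) ℤ,
    v = fun j l => X (ξ j l) - X o := ⟨_, rfl⟩
  obtain ⟨T, hT⟩ : ∃ T : ℕ → Fin n → Matrix (Fin κ) (Fin κ) (MvPolynomial (Fin N) ℤ),
    T = fun ν i => (C (S.u ν i) : MvPolynomial (Fin N) ℤ) •
      (List.ofFn fun j => mx m (v j) ^ S.e ν i j).prod := ⟨_, rfl⟩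
  obtain ⟨P, hP⟩ : ∃ P : ℕ → Matrix (Fin κ) (Fin κ) (MvPolynomial (Fin N) ℤ),
    P = fun ν => (∑ i, T ν i) ^ e₀ := ⟨_, rfl⟩
  have hX : ∀ i j : Fin N, Sz 3 (X i - X j : MvPolynomial (Fin N) ℤ) := fun i j =>
    (Sz.X i).sub (Sz.X j)
  obtain ⟨c, hc⟩ : ∃ c, c = 3 + κ * (3 + 1 + κ) + κ := ⟨_, rfl⟩
  have hmx : ∀ j, MSz c (mx m (v j)) := by
    intro j
    rw [hc]
    exact MSz.mx (fun l => by rw [hm]; exact hX _ _) (fun l => by rw [hv]; exact hX _ _)
  refine ⟨fun ν l => P ν l ⟨0, hκ⟩, ?_, ?_⟩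
  · intro l
    have hM : Few Y (fun ν => ∑ i, ∑ j, S.e ν i j) := S.he
    have hw : Few Y S.w := S.hw
    refine Mild.of_Sz (w := fun ν => e₀ * ((S.w ν + ((∑ i, ∑ j, S.e ν i j) * (c + κ) + N' * κ) + n)
      + κ)) ((Few.const hY e₀).mul (((hw.add hY ((hM.mul (Few.const hY (c + κ))).add hY
        (Few.const hY (N' * κ)))).add hY (Few.const hY n)).add hY (Few.const hY κ))) ?_
    filter_upwards [S.hu] with ν hu
    have hTi : ∀ i, MSz (S.w ν + ((∑ i, ∑ j, S.e ν i j) * (c + κ) + N' * κ)) (T ν i) := by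
      intro i
      rw [hT]
      refine MSz.smul (Sz.C (hu i).2) ?_
      refine (MSz.list _ (fun j => S.e ν i j * (c + κ)) fun j => (hmx j).pow _).mono ?_
      rw [Finset.sum_add_distrib, ← Finset.sum_mul]
      have h1 : ∑ j, S.e ν i j ≤ ∑ i, ∑ j, S.e ν i j :=
        Finset.single_le_sum (f := fun i => ∑ j, S.e ν i j) (fun _ _ => Nat.zero_le _)
          (Finset.mem_univ i)
      have h2 : ∑ _j : Fin N', κ = N' * κ := by simp
      rw [h2]
      exact Nat.add_le_add_right (Nat.mul_le_mul_right _ h1) _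
    have h3 : MSz (S.w ν + ((∑ i, ∑ j, S.e ν i j) * (c + κ) + N' * κ) + n) (∑ i, T ν i) := by
      have := MSz.sum (s := Finset.univ) (f := fun i => T ν i) fun i _ => hTi i
      rwa [Finset.card_univ, Fintype.card_fin] at this
    have h4 := h3.pow e₀ l ⟨0, hκ⟩
    rw [hP]
    exact h4
  · intro ν t α hα
    obtain ⟨φ, hφ⟩ : ∃ φ : MvPolynomial (Fin N) ℤ →+* ℂ, φ = (Int.castRingHom ℂ).comp (eval t) :=
      ⟨_, rfl⟩
    have hφa : ∀ p, φ p = ((eval t p : ℤ) : ℂ) := fun p => by rw [hφ]; rfl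
    have hroot : α ν t ^ κ + ∑ l, φ (m l) * α ν t ^ (l : ℕ) = 0 := by
      rw [← hα]
      congr 1
      unfold vl
      refine Finset.sum_congr rfl fun l _ => ?_
      rw [hφa, hm]
      simp [cv]
    have h1 : ∀ j, EV φ (α ν t) (mx m (v j)) (vl (α ν t) (cv o (ξ j) t)) := by
      intro j
      have h2 := EV.mx m (v j) hroot
      have h3 : ∑ l, φ (v j l) * α ν t ^ (l : ℕ) = vl (α ν t) (cv o (ξ j) t) := by
        unfold vl
        refine Finset.sum_congr rfl fun l _ => ?_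
        rw [hφa, hv]
        simp [cv]
      rwa [h3] at h2
    have h2 : ∀ i, EV φ (α ν t) (T ν i) (TA S α o ξ ν i t) := by
      intro i
      rw [hT]
      have h3 := EV.smul (C (S.u ν i)) (EV.list (fun j => mx m (v j) ^ S.e ν i j)
        (fun j => vl (α ν t) (cv o (ξ j) t) ^ S.e ν i j) fun j => (h1 j).pow _)
      rw [hφa, eval_C] at h3
      exact h3
    have h3 : EV φ (α ν t) (P ν) ((∑ i, TA S α o ξ ν i t) ^ e₀) := by
      rw [hP]
      exact (EV.sum _ _ _ fun i _ => h2 i).pow e₀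
    have h4 := h3.val hκ
    rw [← h4]
    unfold vl
    refine Finset.sum_congr rfl fun l _ => ?_
    rw [hφa]

end

end Pool.Agent.N130.HC
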