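import Pool.Agent.N130.HC.Cmp
import Pool.Agent.N368.HB.Irr

set_option autoImplicit false

/-!
# Irreducibility of `h` for algebraic points (S_irrA; helper130, for project HC)
-/

namespace Pool.Agent.N130.HC

open Filter MvPolynomial Pool.Agent.Y902.GN Pool.Agent.N741.HB Pool.Agent.N741.HC
open Pool.Agent.N368.HB (Ex num en mo pol eval_pol totalDegree_pol abs_coeff_pol eq_pol common_den
  inP_sum inP_mul inP_of_mul irr_of_factor card_filter_le exists_rename_of_dvd)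

noncomputable section

/-! ### Bounds of matrices of integers -/

section mat

variable {κ : ℕ}

theorem mat_mul {M M' : Matrix (Fin κ) (Fin κ) ℤ} {b b' : ℤ} (hb : 0 ≤ b)
    (h : ∀ i j, |M i j| ≤ b) (h' : ∀ i j, |M' i j| ≤ b') (i j : Fin κ) :
    |(M * M') i j| ≤ κ * (b * b') := by
  rw [Matrix.mul_apply]
  refine (Finset.abs_sum_le_sum_abs _ _).trans ?_
  refine (Finset.sum_le_card_nsmul _ _ (b * b') fun k _ => ?_).trans ?_
  · rw [abs_mul]
    exact mul_le_mul (h i k) (h' k j) (abs_nonneg _) hb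
  · rw [Finset.card_univ, Fintype.card_fin, nsmul_eq_mul]

theorem mat_pow {M : Matrix (Fin κ) (Fin κ) ℤ} {b : ℤ} (hb : 0 ≤ b)
    (h : ∀ i j, |M i j| ≤ b) (n : ℕ) (i j : Fin κ) : |(M ^ n) i j| ≤ (κ * b) ^ n := by
  induction n generalizing i j with
  | zero =>
    rw [pow_zero, pow_zero, Matrix.one_apply]
    split_ifs <;> simp
  | succ n ih =>
    rw [pow_succ, pow_succ]
    refine (mat_mul (by positivity) ih h i j).trans (le_of_eq ?_)
    ring

theorem cmp_bd {m : Fin κ → ℤ} {b : ℤ} (hm : ∀ l, |m l| ≤ b) (hb : 0 ≤ b) (i j : Fin κ) :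
    |cmp m i j| ≤ 1 + b := by
  unfold cmp
  rw [Matrix.of_apply]
  refine (abs_sub _ _).trans ?_
  have h1 : |(if (i : ℕ) = j + 1 then (1 : ℤ) else 0)| ≤ 1 := by split_ifs <;> simp
  have h2 : |(if (j : ℕ) + 1 = κ then m i else 0)| ≤ b := by
    split_ifs
    · exact hm i
    · rw [abs_zero]; exact hb
  linarith

theorem mx_bd {m v : Fin κ → ℤ} {b V : ℤ} (hm : ∀ l, |m l| ≤ b) (hb : 0 ≤ b)
    (hv : ∀ l, |v l| ≤ V) (hV : 0 ≤ V) (i j : Fin κ) :
    |mx m v i j| ≤ κ * (V * (κ * (1 + b)) ^ κ) := by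
  unfold mx
  rw [Matrix.sum_apply]
  refine (Finset.abs_sum_le_sum_abs _ _).trans ?_
  refine (Finset.sum_le_card_nsmul _ _ (V * (κ * (1 + b)) ^ κ) fun l _ => ?_).trans ?_
  · rw [Matrix.smul_apply, smul_eq_mul, abs_mul]
    have hκ : (1 : ℤ) ≤ κ := by
      have := l.2
      omega
    have h1 : (1 : ℤ) ≤ κ * (1 + b) := by nlinarith
    refine mul_le_mul (hv l) ?_ (abs_nonneg _) hV
    exact (mat_pow (by linarith) (cmp_bd hm hb) l i j).trans (pow_le_pow_right₀ h1 l.2.le)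
  · rw [Finset.card_univ, Fintype.card_fin, nsmul_eq_mul]

end mat

/-! ### Values -/

theorem vl_sum {κ : ℕ} (a : ℂ) {ι : Type*} (s : Finset ι) (f : ι → Fin κ → ℤ) :
    vl a (fun l => ∑ i ∈ s, f i l) = ∑ i ∈ s, vl a (f i) := by
  unfold vl
  rw [Finset.sum_comm]
  refine Finset.sum_congr rfl fun l _ => ?_
  push_cast
  rw [Finset.sum_mul]

theorem vl_mul {κ : ℕ} (a : ℂ) (c : ℤ) (f : Fin κ → ℤ) :
    vl a (fun l => c * f l) = (c : ℂ) * vl a f := by
  unfold vl
  rw [Finset.mul_sum]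
  refine Finset.sum_congr rfl fun l _ => ?_
  push_cast
  ring

theorem evC_pol {d C : ℕ} (w : Fin (num d C) → ℤ) (θ : ℂ) (s : Fin d → ℤ) :
    evC θ s (pol d C w) = ∑ j, (w j : ℂ) * (θ ^ (en d C j none : ℕ) *
      ∏ b, (s b : ℂ) ^ (en d C j (some b) : ℕ)) := by
  unfold pol
  rw [map_sum]
  refine Finset.sum_congr rfl fun j _ => ?_
  rw [map_mul]
  unfold evC
  rw [coe_eval₂Hom, eval₂_C, eval₂_monomial, Finsupp.prod_fintype _ _ fun i => pow_zero _,
    Fintype.prod_option, map_one, one_mul]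
  rfl

theorem keyA (hk : S_ker) {N d C κ : ℕ} {Om : Finset (Fin N → ℤ)} {a θ : (Fin N → ℤ) → ℂ}
    (lin : ∀ t ∈ Om, ∀ c : Fin κ → ℤ, vl (a t) c = 0 → c = 0) {s : (Fin N → ℤ) → Fin d → ℤ}
    (u : (Fin N → ℤ) → ℕ → Fin κ → ℤ) (hu : ∀ t ∈ Om, ∀ i, vl (a t) (u t i) = θ t ^ i)
    {B : ℤ} (hB : 1 ≤ B) (hsp : ∀ t ∈ Om, ∀ (e : Ex d C) (l : Fin κ),
      |(∏ b, s t b ^ (e (some b) : ℕ)) * u t (e none) l| ≤ B)
    {h f : MvPolynomial (Option (Fin d)) ℤ} (hf : f.totalDegree ≤ C)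
    (hvan : ∀ t ∈ Om, evC (θ t) (s t) f = 0)
    (hall : ∀ w : Fin (num d C) → ℤ, (∀ j, |w j| ≤ ((num d C).factorial : ℤ) * B ^ (num d C)) →
      (∀ t ∈ Om, evC (θ t) (s t) (pol d C w) = 0) → InP h (pol d C w)) : InP h f := by
  -- values in coordinates
  have hval : ∀ (w : Fin (num d C) → ℤ), ∀ t ∈ Om, evC (θ t) (s t) (pol d C w) =
      vl (a t) (fun l => ∑ j, w j * ((∏ b, s t b ^ (en d C j (some b) : ℕ)) *
        u t (en d C j none) l)) := by
    intro w t ht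
    rw [vl_sum, evC_pol]
    refine Finset.sum_congr rfl fun j _ => ?_
    rw [vl_mul, vl_mul, hu t ht]
    push_cast
    ring
  have hzero : ∀ (w : Fin (num d C) → ℤ), ∀ t ∈ Om, (evC (θ t) (s t) (pol d C w) = 0 ↔
      ∀ l, ∑ j, w j * ((∏ b, s t b ^ (en d C j (some b) : ℕ)) * u t (en d C j none) l) = 0) := by
    intro w t ht
    rw [hval w t ht]
    constructor
    · intro h0 l
      exact congrFun (lin t ht _ h0) l
    · intro h0
      unfold vl
      refine Finset.sum_eq_zero fun l _ => ?_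
      have h0l := h0 l
      simp only
      rw [h0l]
      simp
  obtain ⟨k, w, lam, h1, h2⟩ := hk (num d C) ({t // t ∈ Om} × Fin κ)
    (fun q j => (∏ b, s q.1.1 b ^ (en d C j (some b) : ℕ)) * u q.1.1 (en d C j none) q.2) B hB
    (fun q j => hsp q.1.1 q.1.2 _ q.2)
    (fun j => ((f.coeff (mo d C (en d C j)) : ℤ) : ℚ)) (by
      intro q
      have h3 := hvan q.1.1 q.1.2
      rw [eq_pol d C hf, hzero _ q.1.1 q.1.2] at h3
      have h4 : ((∑ j, f.coeff (mo d C (en d C j)) * ((∏ b, s q.1.1 b ^ (en d C j (some b) : ℕ)) *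
          u q.1.1 (en d C j none) q.2) : ℤ) : ℚ) = 0 := by exact_mod_cast h3 q.2
      push_cast at h4 ⊢
      rw [← h4]
      exact Finset.sum_congr rfl fun j _ => mul_comm _ _)
  obtain ⟨q, n, hq, hn⟩ := common_den lam
  have h3 : ∀ l, InP h (pol d C (w l)) := by
    intro l
    refine hall (w l) (h1 l).2 fun t ht => ?_
    rw [hzero _ t ht]
    intro l'
    rw [← (h1 l).1 (⟨t, ht⟩, l')]
    exact Finset.sum_congr rfl fun j _ => mul_comm _ _
  have h4 : ∀ j, q * f.coeff (mo d C (en d C j)) = ∑ l, n l * w l j := by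
    intro j
    have h5 : ((q * f.coeff (mo d C (en d C j)) : ℤ) : ℚ) = ((∑ l, n l * w l j : ℤ) : ℚ) := by
      push_cast
      rw [h2 j, Finset.mul_sum]
      refine Finset.sum_congr rfl fun l _ => ?_
      rw [← hn l]
      ring
    exact_mod_cast h5
  have h5 : MvPolynomial.C q * f = ∑ l, MvPolynomial.C (n l) * pol d C (w l) := by
    conv_lhs => rw [eq_pol d C hf]
    unfold pol
    simp only [Finset.mul_sum]
    rw [Finset.sum_comm]
    refine Finset.sum_congr rfl fun j _ => ?_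
    rw [← mul_assoc, ← map_mul, h4 j, map_sum, Finset.sum_mul]
    refine Finset.sum_congr rfl fun l _ => ?_
    rw [map_mul, mul_assoc]
  have h6 : InP h (rename some (MvPolynomial.C q) * f) := by
    rw [rename_C, h5]
    exact inP_sum _ _ fun l _ => inP_mul _ (h3 l)
  exact inP_of_mul (by rw [ne_eq, MvPolynomial.C_eq_zero]; exact hq) h6

theorem irrA (hk : S_ker) : S_irrA := by
  intro Y N Om hY hBig hBdd κ A d ι G
  classical
  obtain ⟨C, hC⟩ := G.hPB
  obtain ⟨Cθ, hθ⟩ := G.θbd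
  have hκ : 0 < κ := A.pos
  obtain ⟨ev, hev⟩ : ∃ ev : ℕ → (Fin N → ℤ) → MvPolynomial (Option (Fin d)) ℤ →+* ℂ,
      ∀ ν t, ev ν t = evC (G.θ ν t) (fun b => t (ι b)) := ⟨_, fun _ _ => rfl⟩
  have hevC : ∀ ν t (c : ℤ), ev ν t (MvPolynomial.C c) = (c : ℂ) := by
    intro ν t c
    rw [hev]
    simp [evC]
  -- the nonconstant factors
  let V : ℕ → Finset (MvPolynomial (Option (Fin d)) ℤ) := fun ν =>
    ((UniqueFactorizationMonoid.factors (G.h ν)).filter fun f => 0 < f.totalDegree).toFinset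
  have hVmem : ∀ ν f, f ∈ V ν ↔ f ∈ UniqueFactorizationMonoid.factors (G.h ν) ∧
      0 < f.totalDegree := by
    intro ν f
    rw [Multiset.mem_toFinset, Multiset.mem_filter]
  have hVcard : ∀ᶠ ν in (Uf : Filter ℕ), (V ν).card ≤ C := by
    filter_upwards [hC, G.hne] with ν h1 h2
    have h3 : ∀ f ∈ UniqueFactorizationMonoid.factors (G.h ν), f ≠ 0 := fun f hf =>
      (UniqueFactorizationMonoid.irreducible_of_factor f hf).ne_zero
    refine (Multiset.toFinset_card_le _).trans ((card_filter_le _ h3).trans ?_)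
    obtain ⟨u, hu⟩ := UniqueFactorizationMonoid.factors_prod h2
    have h4 : (UniqueFactorizationMonoid.factors (G.h ν)).prod ≠ 0 := by
      intro h0
      rw [Multiset.prod_eq_zero_iff] at h0
      exact h3 0 h0 rfl
    have h5 := totalDegree_mul_of_isDomain h4 u.ne_zero
    rw [hu] at h5
    have := h1.1
    omega
  have hVex : ∀ᶠ ν in (Uf : Filter ℕ), ∀ t ∈ Om ν, ∃ f ∈ V ν, ev ν t f = 0 := by
    filter_upwards [G.ev_h, G.hne] with ν h1 h2 t ht
    have h3 : ev ν t (G.h ν) = 0 := by rw [hev]; exact h1 t ht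
    obtain ⟨u, hu⟩ := UniqueFactorizationMonoid.factors_prod h2
    rw [← hu, map_mul] at h3
    have h4 : ev ν t (u : MvPolynomial (Option (Fin d)) ℤ) ≠ 0 :=
      (u.isUnit.map (ev ν t)).ne_zero
    have h5 := (mul_eq_zero.1 h3).resolve_right h4
    rw [map_multiset_prod, Multiset.prod_eq_zero_iff, Multiset.mem_map] at h5
    obtain ⟨f, hf, hf0⟩ := h5
    refine ⟨f, (hVmem ν f).2 ⟨hf, ?_⟩, hf0⟩
    by_contra h6
    have h7 : f.totalDegree = 0 := by omega
    rw [totalDegree_eq_zero_iff_eq_C] at h7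
    rw [h7, hevC] at hf0
    have hf1 : coeff 0 f = 0 := by exact_mod_cast hf0
    rw [hf1, map_zero] at h7
    exact (UniqueFactorizationMonoid.irreducible_of_factor f hf).ne_zero h7
  let F : ℕ → (Fin N → ℤ) → MvPolynomial (Option (Fin d)) ℤ := fun ν t =>
    if hh : ∃ f ∈ V ν, ev ν t f = 0 then hh.choose else 0
  have hF : ∀ᶠ ν in (Uf : Filter ℕ), ∀ t ∈ Om ν, F ν t ∈ V ν ∧ ev ν t (F ν t) = 0 := by
    filter_upwards [hVex] with ν h1 t ht
    have h2 := h1 t ht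
    have h3 : F ν t = h2.choose := dif_pos h2
    rw [h3]
    exact h2.choose_spec
  obtain ⟨Om1, hsub, hbig1, hconst⟩ := hBig.fiber F V
    (by filter_upwards [hF] with ν h1 t ht using (h1 t ht).1)
    ((Few.const hY C).mono hVcard)
  have hf : ∀ᶠ ν in (Uf : Filter ℕ), ∃ f ∈ V ν, ∀ t ∈ Om1 ν, ev ν t f = 0 := by
    filter_upwards [hF, hsub, hbig1.nonempty, hconst] with ν h1 h2 h3 h4
    obtain ⟨t0, ht0⟩ := h3
    refine ⟨F ν t0, (h1 t0 (h2 ht0)).1, fun t ht => ?_⟩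
    rw [h4 t0 ht0 t ht]
    exact (h1 t (h2 ht)).2
  -- the powers of the generator
  obtain ⟨u, hu⟩ : ∃ u : ℕ → (Fin N → ℤ) → ℕ → Fin κ → ℤ, ∀ ν t i l,
      u ν t i l = (mx (cv A.o A.μ t) (G.θv ν t) ^ i) l ⟨0, hκ⟩ := ⟨_, fun _ _ _ _ => rfl⟩
  have huv : ∀ᶠ ν in (Uf : Filter ℕ), ∀ t ∈ Om ν, ∀ i, vl (A.α ν t) (u ν t i) = G.θ ν t ^ i := by
    filter_upwards [A.root, G.θeq] with ν h1 h2 t ht i
    have h3 := (EV.mx (φ := Int.castRingHom ℂ) (cv A.o A.μ t) (G.θv ν t) (h1 t ht)).pow i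
    have h4 := h3.val hκ
    rw [h2 t ht]
    refine Eq.trans ?_ h4
    unfold vl
    refine Finset.sum_congr rfl fun l _ => ?_
    rw [hu]
    rfl
  -- the exponents
  obtain ⟨c1, hc1⟩ : ∃ c1, c1 = κ + (Cθ + (κ + 2) * κ) := ⟨_, rfl⟩
  obtain ⟨C1, hC1⟩ : ∃ C1, C1 = C * d + (κ + c1) * C := ⟨_, rfl⟩
  have hmon : ∀ᶠ ν in (Uf : Filter ℕ), ∀ t ∈ Om1 ν, ∀ (e : Ex d C) (l : Fin κ),
      |(∏ b, (fun (t : Fin N → ℤ) (b : Fin d) => t (ι b)) t b ^ (e (some b) : ℕ)) *
        u ν t (e none) l| ≤ ((Y ν : ℤ) + 2) ^ C1 := by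
    filter_upwards [hθ, hBdd, hsub] with ν h1 h2 h3 t ht e l
    obtain ⟨y, hy⟩ : ∃ y : ℤ, y = (Y ν : ℤ) + 2 := ⟨_, rfl⟩
    have y2 : (2 : ℤ) ≤ y := by rw [hy]; omega
    have y1 : (1 : ℤ) ≤ y := by omega
    have hκy : (κ : ℤ) ≤ y ^ κ := by
      calc (κ : ℤ) ≤ 2 ^ κ := by exact_mod_cast Nat.lt_two_pow_self.le
        _ ≤ y ^ κ := pow_le_pow_left₀ (by norm_num) y2 _
    have hκ0 : (0 : ℤ) ≤ κ := by positivity
    rw [← hy, abs_mul, hC1, pow_add]
    refine mul_le_mul ?_ ?_ (abs_nonneg _) (by positivity)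
    · rw [Finset.abs_prod]
      calc ∏ b, |(fun (t : Fin N → ℤ) (b : Fin d) => t (ι b)) t b ^ (e (some b) : ℕ)| ≤
            ∏ _b : Fin d, y ^ C := by
            refine Finset.prod_le_prod (fun o _ => abs_nonneg _) fun b _ => ?_
            rw [abs_pow]
            have h5 : |t (ι b)| ≤ y := by
              have := (h2 t (h3 ht) (ι b)).2
              rw [hy]; linarith
            exact (pow_le_pow_left₀ (abs_nonneg _) h5 _).trans
              (pow_le_pow_right₀ y1 (by omega))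
        _ = y ^ (C * d) := by
            rw [Finset.prod_const, ← pow_mul]
            simp
    · rw [hu]
      have hm : ∀ l, |cv A.o A.μ t l| ≤ 2 * (Y ν : ℤ) := by
        intro l
        unfold cv
        refine (abs_sub _ _).trans ?_
        have e1 := (h2 t (h3 ht) (A.μ l)).2
        have e2 := (h2 t (h3 ht) A.o).2
        linarith
      have hb0 : (0 : ℤ) ≤ 2 * (Y ν : ℤ) := by positivity
      have hθv : ∀ l, |G.θv ν t l| ≤ y ^ Cθ := by
        intro l
        rw [hy]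
        exact h1 t (h3 ht) l
      have hmx : ∀ i j, |mx (cv A.o A.μ t) (G.θv ν t) i j| ≤ y ^ c1 := by
        intro i j
        refine (mx_bd hm hb0 hθv (by positivity) i j).trans ?_
        have e1 : (κ : ℤ) * (1 + 2 * (Y ν : ℤ)) ≤ y ^ (κ + 2) := by
          rw [pow_add]
          refine mul_le_mul hκy ?_ (by positivity) (by positivity)
          rw [hy]
          nlinarith [sq_nonneg ((Y ν : ℤ))]
        have e2 : ((κ : ℤ) * (1 + 2 * (Y ν : ℤ))) ^ κ ≤ y ^ ((κ + 2) * κ) := by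
          rw [pow_mul]
          exact pow_le_pow_left₀ (by positivity) e1 _
        rw [hc1, pow_add, pow_add]
        refine mul_le_mul hκy ?_ (by positivity) (by positivity)
        exact mul_le_mul_of_nonneg_left e2 (by positivity)
      refine (mat_pow (by positivity) hmx _ _ _).trans ?_
      have e3 : (κ : ℤ) * y ^ c1 ≤ y ^ (κ + c1) := by
        rw [pow_add]
        exact mul_le_mul_of_nonneg_right hκy (by positivity)
      rw [pow_mul]
      refine (pow_le_pow_left₀ (by positivity) e3 _).trans ?_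
      exact pow_le_pow_right₀ (one_le_pow₀ y1) (by omega)
  have hall : ∀ᶠ ν in (Uf : Filter ℕ), ∀ w : Fin (num d C) → ℤ,
      (∀ j, |w j| ≤ ((num d C).factorial : ℤ) * (((Y ν : ℤ) + 2) ^ C1) ^ (num d C)) →
      (∀ t ∈ Om1 ν, ev ν t (pol d C w) = 0) → InP (G.h ν) (pol d C w) := by
    by_contra hcon
    rw [← ev_not] at hcon
    have hcon2 : ∀ᶠ ν in (Uf : Filter ℕ), ∃ w : Fin (num d C) → ℤ,
        (∀ j, |w j| ≤ ((num d C).factorial : ℤ) * (((Y ν : ℤ) + 2) ^ C1) ^ (num d C)) ∧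
        (∀ t ∈ Om1 ν, ev ν t (pol d C w) = 0) ∧ ¬ InP (G.h ν) (pol d C w) := by
      filter_upwards [hcon] with ν h1
      push Not at h1
      exact h1
    obtain ⟨w, hw⟩ := hcon2.choice
    have h1 : PB Y fun ν => pol d C (w ν) := by
      refine ⟨max ((d + 1) * C) (C1 * num d C + 1), ?_⟩
      filter_upwards [hw, hY (num d C * (num d C).factorial)] with ν h2 h3
      have y1 : (1 : ℤ) ≤ (Y ν : ℤ) + 2 := by omega
      refine ⟨(totalDegree_pol _ _ _).trans (le_max_left _ _), fun m => ?_⟩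
      have h4 : (0 : ℤ) ≤ ((num d C).factorial : ℤ) * (((Y ν : ℤ) + 2) ^ C1) ^ (num d C) := by
        positivity
      refine (abs_coeff_pol _ _ h4 h2.1 m).trans ?_
      have h5 : ((num d C * (num d C).factorial : ℕ) : ℤ) ≤ (Y ν : ℤ) + 2 := by
        have : ((num d C * (num d C).factorial : ℕ) : ℤ) ≤ (Y ν : ℤ) := by exact_mod_cast h3
        omega
      calc (num d C : ℤ) * (((num d C).factorial : ℤ) * (((Y ν : ℤ) + 2) ^ C1) ^ (num d C))
          = ((num d C * (num d C).factorial : ℕ) : ℤ) * ((Y ν : ℤ) + 2) ^ (C1 * num d C) := by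
            rw [← pow_mul]; push_cast; ring
        _ ≤ ((Y ν : ℤ) + 2) * ((Y ν : ℤ) + 2) ^ (C1 * num d C) :=
            mul_le_mul_of_nonneg_right h5 (by positivity)
        _ = ((Y ν : ℤ) + 2) ^ (C1 * num d C + 1) := by rw [pow_succ]; ring
        _ ≤ _ := pow_le_pow_right₀ y1 (le_max_right _ _)
    have h2 := G.div _ h1 Om1 hsub hbig1 (by
      filter_upwards [hw] with ν h2 t ht
      rw [← hev]
      exact h2.2.1 t ht)
    obtain ⟨ν, h3, h4⟩ := (h2.and hw).exists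
    exact h4.2.2 h3
  filter_upwards [G.hne, G.hone, hall, hf, hC, hmon, hsub, huv, A.lin] with
    ν h1 h2 h3 h4 h5 h6 h7 h8 h9
  obtain ⟨f, hfV, hf0⟩ := h4
  have hfac := ((hVmem ν f).1 hfV).1
  have hirr := UniqueFactorizationMonoid.irreducible_of_factor f hfac
  obtain ⟨g', hg'⟩ := UniqueFactorizationMonoid.dvd_of_mem_factors hfac
  have hg0 : g' ≠ 0 := by
    rintro rfl
    rw [mul_zero] at hg'
    exact h1 hg'
  have hdeg : f.totalDegree ≤ C := by
    have h7 := totalDegree_mul_of_isDomain hirr.ne_zero hg0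
    rw [← hg'] at h7
    have := h5.1
    omega
  have y1 : (1 : ℤ) ≤ ((Y ν : ℤ) + 2) ^ C1 := one_le_pow₀ (by omega)
  obtain ⟨c, hc, hd⟩ := keyA hk (Om := Om1 ν) (a := A.α ν) (θ := G.θ ν)
    (fun t ht => h9 t (h7 ht)) (s := fun t b => t (ι b)) (u ν) (fun t ht => h8 t (h7 ht)) y1 h6
    hdeg (fun t ht => by rw [← hev]; exact hf0 t ht) (fun w hw1 hw2 => h3 w hw1 fun t ht => by
      rw [hev]; exact hw2 t ht)
  have h10 : g' ∣ rename some c := by
    rw [hg', mul_comm (rename some c) f] at hd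
    exact (mul_dvd_mul_iff_left hirr.ne_zero).1 hd
  obtain ⟨g, rfl⟩ := exists_rename_of_dvd hc h10
  exact irr_of_factor h1 h2 hirr hg'

end

end Pool.Agent.N130.HC
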