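import Pool.Agent.N741.HB.Stm3
import Pool.Agent.N26.HB.Rel

set_option autoImplicit false

/-!
# An equation of bounded degree for `z` (S_relZ; helper130, for project HC)
-/

namespace Pool.Agent.N130.HC

open Filter MvPolynomial Pool.Agent.Y902.GN Pool.Agent.N741.HB Pool.Agent.N741.HC
open Pool.Agent.N26.HB (cf cf_ne nm_cf td_cf lg few_lg y_le_nat few_lt_X nm_mild)

noncomputable section

theorem cf_eval {d M I : ℕ} (c : (Fin d → Fin M) → Fin I → ℤ) (s : Fin d → ℤ) (j : Fin I) :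
    ((eval s (cf c j) : ℤ) : ℂ) = ∑ e, (c e j : ℂ) * ∏ b, (s b : ℂ) ^ (e b : ℕ) := by
  unfold cf
  rw [map_sum]
  push_cast
  refine Finset.sum_congr rfl fun e _ => ?_
  rw [map_mul, eval_C, map_prod]
  push_cast
  congr 1
  refine Finset.prod_congr rfl fun b _ => ?_
  rw [map_pow, eval_X]
  push_cast
  rfl

theorem relZ (h : S_relF) : S_relZ := by
  intro Y N Om hY hbig hb G κ A F _ r w ζ hr hrf hwf hz
  classical
  -- the large set where everything is nonzero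
  obtain ⟨Z, hZ⟩ : ∃ Z : ℕ → Finset (Fin N → ℤ), ∀ ν t, t ∈ Z ν ↔ t ∈ Om ν ∧
      eval (G.sp ν t) (pderiv none (G.h ν)) ≠ 0 ∧ eval (fun b => t (G.ι b)) (G.b0 ν) ≠ 0 :=
    ⟨fun ν => (Om ν).filter fun t => eval (G.sp ν t) (pderiv none (G.h ν)) ≠ 0 ∧
      eval (fun b => t (G.ι b)) (G.b0 ν) ≠ 0, fun ν t => Finset.mem_filter⟩
  have hZbig : Big Y Z := by
    rcases hbig.or hY (B := Z) (C := fun ν => ((Om ν).filter fun t =>
        eval (G.sp ν t) (pderiv none (G.h ν)) = 0) ∪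
        ((Om ν).filter fun t => eval (fun b => t (G.ι b)) (G.b0 ν) = 0))
      (Filter.Eventually.of_forall fun ν t ht => by
        rw [Finset.mem_union, Finset.mem_union, Finset.mem_filter, Finset.mem_filter, hZ]
        tauto) with h | h
    · exact h
    · rcases h.or hY (Filter.Eventually.of_forall fun ν => subset_rfl) with h | h
      · exact absurd h G.sep
      · exact absurd h (G.small _ G.b0PB G.b0ne)
  obtain ⟨m, hm⟩ := hZbig
  obtain ⟨q, hq⟩ : ∃ q, q = 2 * (G.d + N + κ) + 5 := ⟨_, rfl⟩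
  obtain ⟨k, hk⟩ : ∃ k, k = 4 * q * m + 1 := ⟨_, rfl⟩
  have hk1 : 1 ≤ k := by omega
  obtain ⟨I, D, X₀, C, hI, hdet⟩ := h G.d k κ N A.pos
  obtain ⟨xx, hX⟩ := rootX Y k hk1
  have hX1 : ∀ ν, Y ν + 2 ≤ xx ν ^ k := fun ν => (hX ν).2.1
  -- values
  obtain ⟨C1, hC1⟩ := Pool.Agent.N741.HB.GD.sp_bd hb G
  obtain ⟨uh, huh, huh'⟩ := Mild.eval_bd hY (PB.mild hY (PB.pderiv none G.hPB)) hC1
  have hC2 : ∀ᶠ ν in (Uf : Filter ℕ), ∀ t ∈ Om ν, ∀ b : Fin G.d,
      |(fun (ν : ℕ) (t : Fin N → ℤ) (b : Fin G.d) => t (G.ι b)) ν t b| ≤ ((Y ν : ℤ) + 2) ^ 1 := by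
    filter_upwards [hb] with ν a t ht b
    have := (a t ht (G.ι b)).2
    rw [pow_one]
    show |t (G.ι b)| ≤ _
    linarith
  obtain ⟨ub, hub, hub'⟩ := Mild.eval_bd hY (PB.mild hY G.b0PB) hC2
  obtain ⟨B, hB⟩ : ∃ B : ℕ → ℕ, ∀ ν, B ν = w ν + lg Y ν + (uh ν + ub ν) := ⟨_, fun _ => rfl⟩
  have hBf : Few Y B := by
    have e1 : Few Y (fun ν => w ν + lg Y ν + (uh ν + ub ν)) :=
      (hwf.add hY (few_lg hY)).add hY (huh.add hY hub)
    exact e1.mono (Filter.Eventually.of_forall fun ν => (hB ν).le)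
  have hB1f : Few Y (fun ν => B ν + 1) := hBf.add hY (Few.const hY 1)
  obtain ⟨W, hW⟩ : ∃ W : ℕ → ℕ, ∀ ν, W ν = C * (B ν + 1) + 1 := ⟨_, fun _ => rfl⟩
  have hWf : Few Y W := by
    have e1 : Few Y (fun ν => C * (B ν + 1) + 1) :=
      ((Few.const hY C).mul hB1f).add hY (Few.const hY 1)
    exact e1.mono (Filter.Eventually.of_forall fun ν => (hW ν).le)
  have hsize1 : ∀ᶠ ν in (Uf : Filter ℕ), I * (I * W ν) ^ G.d < xx ν :=
    few_lt_X hX1 ((Few.const hY I).mul (((Few.const hY I).mul hWf).pow G.d))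
  have hsize2 : ∀ᶠ ν in (Uf : Filter ℕ), C * (B ν + 1) * (r ν + 1) < xx ν :=
    few_lt_X hX1 (((Few.const hY C).mul hB1f).mul (hrf.add hY (Few.const hY 1)))
  -- the relation
  have key : ∀ᶠ ν in (Uf : Filter ℕ), ∃ TP : Finset (Fin N → ℤ) ×
      (Fin I → MvPolynomial (Fin G.d) ℤ), TP.1 ⊆ Z ν ∧
      (Z ν).card ≤ xx ν ^ q * TP.1.card ∧ (∃ j, TP.2 j ≠ 0) ∧
      (∀ j, (TP.2 j).totalDegree ≤ G.d * (I * W ν) ∧
        Pool.Agent.N26.HB.nm (TP.2 j) ≤ (I * W ν) ^ G.d * xx ν ^ (D * W ν)) ∧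
      ∀ t ∈ TP.1, ∑ j : Fin I, ((eval (fun q => t (G.ι q)) (TP.2 j) : ℤ) : ℂ) *
        vl (A.α ν t) (ζ ν t) ^ (j : ℕ) = 0 := by
    filter_upwards [X_large hY hX1 X₀, X_large hY hX1 2, hsize1, hsize2, hz, hb, huh', hub',
      G.ev_h, G.ev_b, hr, A.root, A.lin] with ν g1 g2 g3 g4 g5 g6 g7 g8 g9 g10 g11 g12 g13
    have hBpow : ∀ i, i ≤ B ν → (2 : ℤ) ^ i ≤ 2 ^ B ν := fun i hi =>
      pow_le_pow_right₀ (by norm_num) hi
    obtain ⟨T', a1, a2, c, a3, a4, a5⟩ := hdet (xx ν) (Y ν + 2) (W ν) (B ν) (r ν) g1 (by omega)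
      (hX1 ν) (by rw [hW]; omega) g11 g3.le (by
        refine (y_le_nat Y ν).trans (Nat.pow_le_pow_right (by norm_num) ?_)
        rw [hB]; omega) g4.le (by
        calc 2 ^ (C * (B ν + 1)) ≤ 2 ^ W ν := Nat.pow_le_pow_right (by norm_num) (by
              rw [hW]; omega)
          _ ≤ xx ν ^ W ν := Nat.pow_le_pow_left g2 _)
      G.ι A.o A.μ (G.h ν) (G.b0 ν) (fun j => G.b j ν) (F ν) (Z ν) (G.θ ν) (A.α ν) (ζ ν) (by
        intro t ht
        obtain ⟨ht1, ht2, ht3⟩ := (hZ ν t).1 ht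
        obtain ⟨z1, z2, z3⟩ := g5 t ht1
        refine ⟨?_, ?_, z2, g12 t ht1, g13 t ht1, z3, g9 t ht1, g10 t ht1, ht2, ?_, ht3, ?_⟩
        · intro j
          have := (g6 t ht1 j).2
          push_cast
          linarith
        · intro l
          exact (z1 l).trans (hBpow _ (by rw [hB]; omega))
        · exact (g7 t ht1).trans (hBpow _ (by rw [hB]; omega))
        · exact (g8 t ht1).trans (hBpow _ (by rw [hB]; omega)))
    refine ⟨(T', fun j => cf c j), a1, by rw [hq]; exact a2, cf_ne a3, ?_, ?_⟩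
    · intro j
      refine ⟨td_cf c _, nm_cf (B := xx ν ^ (D * W ν)) ?_ _⟩
      intro e l
      push_cast
      exact a4 e l
    · intro t ht
      rw [← a5 t ht, Finset.sum_comm]
      refine Finset.sum_congr rfl fun j _ => ?_
      show ((eval (fun q => t (G.ι q)) (cf c j) : ℤ) : ℂ) * _ = _
      rw [cf_eval, Finset.sum_mul]
      refine Finset.sum_congr rfl fun e _ => ?_
      ring
  obtain ⟨TP, hTP⟩ := key.choice
  refine ⟨I, fun ν => (TP ν).1, fun ν => (TP ν).2, ?_, ?_, ?_, ?_, ?_⟩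
  · filter_upwards [hTP] with ν hν t ht
    exact ((hZ ν t).1 (hν.1 ht)).1
  · refine Big.frac hY (A := Z) (X := xx) (m := m) (e := q) (k := k) (by omega) hm ?_ ?_
    · filter_upwards [hTP] with ν hν
      exact hν.2.1
    · exact Filter.Eventually.of_forall fun ν => ⟨(hX ν).1, (hX ν).2.2⟩
  · intro j
    obtain ⟨v, hv⟩ : ∃ v : ℕ → ℕ, ∀ ν, v ν = G.d * (I * W ν) + (k + lg Y ν) * (D * W ν) :=
      ⟨_, fun _ => rfl⟩
    have hvf : Few Y v := by
      have e1 : Few Y (fun ν => G.d * (I * W ν) + (k + lg Y ν) * (D * W ν)) :=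
        ((Few.const hY G.d).mul ((Few.const hY I).mul hWf)).add hY
          (((Few.const hY k).add hY (few_lg hY)).mul ((Few.const hY D).mul hWf))
      exact e1.mono (Filter.Eventually.of_forall fun ν => (hv ν).le)
    refine nm_mild hvf ?_
    filter_upwards [hTP] with ν hν
    obtain ⟨b1, b2⟩ := hν.2.2.2.1 j
    refine ⟨b1.trans (by rw [hv]; omega), b2.trans ?_⟩
    have hxx : xx ν ≤ 2 ^ (k + lg Y ν) := by
      calc xx ν ≤ xx ν ^ k := Nat.le_self_pow (by omega) _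
        _ ≤ 2 ^ k * (Y ν + 2) := (hX ν).2.2
        _ ≤ 2 ^ k * 2 ^ lg Y ν := Nat.mul_le_mul_left _ (y_le_nat Y ν)
        _ = 2 ^ (k + lg Y ν) := by rw [pow_add]
    calc (I * W ν) ^ G.d * xx ν ^ (D * W ν) ≤
          (2 ^ (I * W ν)) ^ G.d * (2 ^ (k + lg Y ν)) ^ (D * W ν) :=
          Nat.mul_le_mul (Nat.pow_le_pow_left Nat.lt_two_pow_self.le _)
            (Nat.pow_le_pow_left hxx _)
      _ = 2 ^ (G.d * (I * W ν) + (k + lg Y ν) * (D * W ν)) := by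
          rw [← pow_mul, ← pow_mul, ← pow_add]
          congr 1
          ring
      _ = 2 ^ v ν := by rw [hv]
  · exact hTP.mono fun ν a => a.2.2.1
  · exact hTP.mono fun ν a => a.2.2.2.2

end

end Pool.Agent.N130.HC
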