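import Pool.Agent.N741.HB.Stm3
import Pool.Agent.N26.HB.Rel

set_option autoImplicit false

/-!
# From the points to the function field (S_rtA; helper130, for project HC)
-/

namespace Pool.Agent.N130.HC

open Filter MvPolynomial Pool.Agent.Y902.GN Pool.Agent.N741.HB Pool.Agent.N741.HC
open Pool.Agent.N26.HB (QQ QQ_coeff QQ_deg_le QQ_deg_ne RR)

noncomputable section

theorem evC_rename {d : ℕ} (θ : ℂ) (s : Fin d → ℤ) (l : MvPolynomial (Fin d) ℤ) :
    evC θ s (rename some l) = ((eval s l : ℤ) : ℂ) := by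
  have h : (evC θ s).comp ((rename some : MvPolynomial (Fin d) ℤ →ₐ[ℤ]
      MvPolynomial (Option (Fin d)) ℤ).toRingHom) = (Int.castRingHom ℂ).comp (eval s) := by
    apply MvPolynomial.ringHom_ext
    · intro a
      simp [evC]
    · intro i
      simp [evC]
  exact RingHom.congr_fun h l

/-- the polynomial with given coefficients -/
def PC {d I : ℕ} (c : Fin I → MvPolynomial (Fin d) ℤ) : Polynomial (MvPolynomial (Fin d) ℤ) :=
  ∑ l : Fin I, Polynomial.C (c l) * Polynomial.X ^ (l : ℕ)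

theorem PC_coeff {d I : ℕ} (c : Fin I → MvPolynomial (Fin d) ℤ) (i : ℕ) :
    (PC c).coeff i = if h : i < I then c ⟨i, h⟩ else 0 := by
  unfold PC
  rw [Polynomial.finsetSum_coeff]
  simp only [Polynomial.coeff_C_mul_X_pow]
  split_ifs with h
  · rw [Finset.sum_eq_single ⟨i, h⟩]
    · simp
    · intro l _ hl
      rw [if_neg]
      intro hcon
      exact hl (Fin.ext hcon.symm)
    · intro h3
      exact absurd (Finset.mem_univ _) h3
  · apply Finset.sum_eq_zero
    intro l _
    rw [if_neg]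
    intro hcon
    exact h (hcon ▸ l.2)

theorem PC_ne {d I : ℕ} {c : Fin I → MvPolynomial (Fin d) ℤ} (hc : ∃ j, c j ≠ 0) : PC c ≠ 0 := by
  obtain ⟨l, hl⟩ := hc
  intro h
  apply hl
  have := PC_coeff c (l : ℕ)
  rw [h, Polynomial.coeff_zero, dif_pos l.2] at this
  exact this.symm

theorem PC_deg {d I : ℕ} (c : Fin I → MvPolynomial (Fin d) ℤ) : (PC c).natDegree ≤ I := by
  rw [Polynomial.natDegree_le_iff_coeff_eq_zero]
  intro i hi
  rw [PC_coeff, dif_neg (by omega)]

/-- the resultant vanishes at a common zero -/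
theorem RR_evalC {d I : ℕ} {c : Fin I → MvPolynomial (Fin d) ℤ}
    {A F : MvPolynomial (Option (Fin d)) ℤ} {r : ℕ} (hA : A ≠ 0) (hr : 1 ≤ r)
    {θ : ℂ} {s : Fin d → ℤ} {z : ℂ} (hP : ∑ j : Fin I, ((eval s (c j) : ℤ) : ℂ) * z ^ (j : ℕ) = 0)
    (hQ : evC θ s A * z ^ r = evC θ s F) : evC θ s (RR (PC c) A F r) = 0 := by
  obtain ⟨p, q, -, -, h⟩ := Polynomial.exists_mul_add_mul_eq_C_resultant
    ((PC c).map (rename some).toRingHom) (QQ A F r) le_rfl le_rfl (Or.inr (QQ_deg_ne hA hr))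
  have h1 : RR (PC c) A F r = ((PC c).map (rename some).toRingHom).resultant (QQ A F r) := rfl
  rw [← h1] at h
  have h2 := congrArg (fun f => (f.map (evC θ s)).eval z) h
  simp only [Polynomial.map_add, Polynomial.map_mul, Polynomial.eval_add, Polynomial.eval_mul,
    Polynomial.map_C, Polynomial.eval_C] at h2
  rw [← h2]
  have h3 : (((PC c).map (rename some).toRingHom).map (evC θ s)).eval z = 0 := by
    rw [← hP]
    unfold PC
    simp only [Polynomial.map_sum, Polynomial.map_mul, Polynomial.map_C, Polynomial.map_pow,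
      Polynomial.map_X, Polynomial.eval_finsetSum, Polynomial.eval_mul, Polynomial.eval_C,
      Polynomial.eval_pow, Polynomial.eval_X]
    refine Finset.sum_congr rfl fun j _ => ?_
    congr 1
    exact evC_rename θ s (c j)
  have h4 : ((QQ A F r).map (evC θ s)).eval z = 0 := by
    unfold QQ
    simp only [Polynomial.map_sub, Polynomial.map_mul, Polynomial.map_C, Polynomial.map_pow,
      Polynomial.map_X, Polynomial.eval_sub, Polynomial.eval_mul, Polynomial.eval_C,
      Polynomial.eval_pow, Polynomial.eval_X]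
    rw [hQ, sub_self]
  rw [h3, h4]
  ring

theorem few_sum {Y : ℕ → ℕ} (hY : ∀ m : ℕ, ∀ᶠ ν in (Uf : Filter ℕ), m ≤ Y ν) {ι : Type*}
    (s : Finset ι) (f : ι → ℕ → ℕ) (h : ∀ i ∈ s, Few Y (f i)) :
    Few Y fun ν => ∑ i ∈ s, f i ν := by
  classical
  induction s using Finset.induction_on with
  | empty => simpa using Few.const hY 0
  | insert a s ha ih =>
    have := (h a (Finset.mem_insert_self _ _)).add hY
      (ih fun i hi => h i (Finset.mem_insert_of_mem hi))
    exact this.mono (Filter.Eventually.of_forall fun ν => by rw [Finset.sum_insert ha])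

theorem rtA (h1 : S_relZ) (h2 : S_starA) (h3 : S_root) (h4 : S_irrA) (h5 : S_van) : S_rtA := by
  intro Y N Om hY hbig hb G κ A G' F hF Ac Fc hAm hFm hAne hAF r w ζ hr hrf hwf hz
  classical
  obtain ⟨I, Om', c, c1, c2, c3, c4, c5⟩ := h1 Y N Om hY hbig hb G κ A F hF r w ζ hr hrf hwf hz
  -- `z` is nonzero
  have hz0 : ∀ᶠ ν in (Uf : Filter ℕ), ∀ t ∈ Om ν, vl (A.α ν t) (ζ ν t) ≠ 0 := by
    filter_upwards [hz, A.lin] with ν a b t ht h0
    exact (a t ht).2.1 (b t ht _ h0)
  -- the equation at the points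
  have heq : ∀ᶠ ν in (Uf : Filter ℕ), ∀ t ∈ Om ν, evC (G'.θ ν t) (fun b => t (G.ι b)) (Ac ν) *
      vl (A.α ν t) (ζ ν t) ^ r ν = evC (G'.θ ν t) (fun b => t (G.ι b)) (Fc ν) := by
    filter_upwards [hz, hAF] with ν a b t ht
    rw [(a t ht).2.2, b t ht]
  -- `Fc` does not vanish on the generic fibre
  have hFne : ∀ᶠ ν in (Uf : Filter ℕ), ¬ InP (G'.h ν) (Fc ν) := by
    rw [ev_not]
    intro hall
    have hex : ∀ᶠ ν in (Uf : Filter ℕ), ∃ l : MvPolynomial (Fin G.d) ℤ, l ≠ 0 ∧
        l.totalDegree ≤ (G'.h ν).totalDegree ∧ (∀ m, ∃ m', l.coeff m = (G'.h ν).coeff m') ∧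
        ∃ k : ℕ, G'.h ν ∣ rename some l ^ k * Fc ν := by
      filter_upwards [hall, G'.hne, G'.hone] with ν a1 a2 a3
      obtain ⟨l, b1, b2, b3, b4⟩ := h5 G.d (G'.h ν) a2 a3
      exact ⟨l, b1, b2, b3, b4 _ a1⟩
    obtain ⟨l, hl⟩ := hex.choice
    have hlPB : PB Y l := by
      obtain ⟨C, hC⟩ := G'.hPB
      refine ⟨C, ?_⟩
      filter_upwards [hC, hl] with ν a1 a2
      refine ⟨a2.2.1.trans a1.1, fun m => ?_⟩
      obtain ⟨m', hm'⟩ := a2.2.2.1 m
      rw [hm']
      exact a1.2 m'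
    have hlne : ∀ᶠ ν in (Uf : Filter ℕ), l ν ≠ 0 := hl.mono fun ν a => a.1
    have hbig2 : Big Y (fun ν => (Om ν).filter fun t => eval (fun b => t (G.ι b)) (l ν) ≠ 0) := by
      rcases hbig.or hY (B := fun ν => (Om ν).filter fun t => eval (fun b => t (G.ι b)) (l ν) ≠ 0)
        (C := fun ν => (Om ν).filter fun t => eval (fun b => t (G.ι b)) (l ν) = 0)
        (Filter.Eventually.of_forall fun ν t ht => by
          rw [Finset.mem_union, Finset.mem_filter, Finset.mem_filter]
          tauto) with h | h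
      · exact h
      · exact absurd h (G.small l hlPB hlne)
    have hAIn := h2 Y N Om hY hbig hb G κ A G' Ac hAm _
      (Filter.Eventually.of_forall fun ν => Finset.filter_subset _ _) hbig2 (by
        filter_upwards [hl, G'.ev_h, hz0, heq] with ν a1 a2 a3 a4 t ht
        obtain ⟨ht1, ht2⟩ := Finset.mem_filter.1 ht
        obtain ⟨k, q, hq⟩ := a1.2.2.2
        have e1 := congrArg (evC (G'.θ ν t) (fun b => t (G.ι b))) hq
        rw [map_mul, map_mul, map_pow, a2 t ht1, zero_mul, evC_rename] at e1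
        have e2 : (((eval (fun b => t (G.ι b)) (l ν) : ℤ) : ℂ)) ^ k ≠ 0 :=
          pow_ne_zero k (by exact_mod_cast ht2)
        have e3 := (mul_eq_zero.1 e1).resolve_left e2
        have e4 := a4 t ht1
        rw [e3] at e4
        exact (mul_eq_zero.1 e4).resolve_right (pow_ne_zero _ (a3 t ht1)))
    have := (hAne.and hAIn).exists
    obtain ⟨ν, hν1, hν2⟩ := this
    exact hν1 hν2
  have hA0 : ∀ᶠ ν in (Uf : Filter ℕ), Ac ν ≠ 0 := by
    filter_upwards [hAne] with ν a h0
    apply a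
    rw [h0]
    exact ⟨1, one_ne_zero, by simp⟩
  -- the resultant
  obtain ⟨res, hres⟩ : ∃ res : ℕ → MvPolynomial (Option (Fin G.d)) ℤ,
      ∀ ν, res ν = RR (PC (c ν)) (Ac ν) (Fc ν) (r ν) := ⟨_, fun _ => rfl⟩
  have hresmild : Mild Y res := by
    choose wc hwc hwc' using fun j => (c3 j).Sz hY
    obtain ⟨wA, hwA, hwA'⟩ := hAm.Sz hY
    obtain ⟨wF, hwF, hwF'⟩ := hFm.Sz hY
    obtain ⟨W, hW⟩ : ∃ W : ℕ → ℕ, ∀ ν, W ν = (∑ j, wc j ν) + (wA ν + wF ν + 1) := ⟨_, fun _ => rfl⟩
    have hWf : Few Y W := by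
      have e1 : Few Y (fun ν => (∑ j, wc j ν) + (wA ν + wF ν + 1)) :=
        (few_sum hY Finset.univ wc fun j _ => hwc j).add hY
          ((hwA.add hY hwF).add hY (Few.const hY 1))
      exact e1.mono (Filter.Eventually.of_forall fun ν => (hW ν).le)
    have hPsz : ∀ᶠ ν in (Uf : Filter ℕ), ∀ i,
        Sz (W ν) (((PC (c ν)).map (rename some).toRingHom).coeff i) := by
      have h6 : ∀ᶠ ν in (Uf : Filter ℕ), ∀ j, Sz (wc j ν) (c ν j) := Filter.eventually_all.2 hwc'
      filter_upwards [h6] with ν a i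
      rw [Polynomial.coeff_map, PC_coeff]
      have h7 : Sz (W ν) (if h : i < I then c ν ⟨i, h⟩ else 0) := by
        split_ifs with h
        · refine (a ⟨i, h⟩).mono ?_
          rw [hW]
          have := Finset.single_le_sum (f := fun j => wc j ν) (fun _ _ => Nat.zero_le _)
            (Finset.mem_univ (⟨i, h⟩ : Fin I))
          have h8 : wc ⟨i, h⟩ ν ≤ ∑ j, wc j ν := this
          omega
        · exact Sz.zero
      exact h7.rename some
    have hQsz : ∀ᶠ ν in (Uf : Filter ℕ), ∀ i, Sz (W ν) ((QQ (Ac ν) (Fc ν) (r ν)).coeff i) := by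
      filter_upwards [hwA', hwF'] with ν a b i
      rw [QQ_coeff]
      have e1 : Sz (wA ν) (if i = r ν then Ac ν else 0) := by
        split_ifs
        · exact a
        · exact Sz.zero
      have e2 : Sz (wF ν) (if i = 0 then Fc ν else 0) := by
        split_ifs
        · exact b
        · exact Sz.zero
      exact (e1.sub e2).mono (by rw [hW]; omega)
    have hPdf : Few Y (fun ν => ((PC (c ν)).map (rename
        (some : Fin G.d → Option (Fin G.d))).toRingHom).natDegree) :=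
      (Few.const hY I).mono (Filter.Eventually.of_forall fun ν =>
        Polynomial.natDegree_map_le.trans (PC_deg _))
    have hQdf : Few Y (fun ν => (QQ (Ac ν) (Fc ν) (r ν)).natDegree) :=
      hrf.mono (Filter.Eventually.of_forall fun ν => QQ_deg_le _ _ _)
    refine (Mild.resultant hY hWf hPdf hQdf hPsz hQsz).congr
      (Filter.Eventually.of_forall fun ν => ?_)
    rw [hres]
    rfl
  have hresInP := h2 Y N Om hY hbig hb G κ A G' res hresmild Om' c1 c2 (by
    filter_upwards [c1, c5, hA0, hr, heq] with ν a1 a2 a3 a4 a5 t ht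
    rw [hres]
    exact RR_evalC a3 a4 (a2 t ht) (a5 t (a1 ht)))
  -- the end
  refine ⟨I, ?_⟩
  filter_upwards [hresInP, h4 Y N Om hY hbig hb κ A G.d G.ι G', c4, hAne, hFne, hr] with
    ν b1 b2 b3 b4 b5 b6
  rw [hres] at b1
  obtain ⟨κ', k1, k2, g₁, g₂, k3, k4, k5⟩ := h3 G.d (G'.h ν) b2 (PC (c ν)) (Ac ν) (Fc ν) (r ν)
    (PC_ne b3) b6 b4 b5 b1
  exact ⟨κ', k1, k2.trans (PC_deg _), g₁, g₂, k3, k4, k5⟩

end

end Pool.Agent.N130.HC
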